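import Pool.Agent.Helper82.TET.MKL

/-!
# Leaf of the M-cones for a body inside a chain simplex

Here only the four points of the chain are used: the simplex itself may contain lattice points.
-/

set_option autoImplicit false

namespace Pool.Agent.Helper82.TET

open Pool.Agent.Helper84.FL

theorem pz_sum_left (g : Fin 4 → Fin 3 → ℝ) (c : Fin 4 → ℝ) (z : Fin 3 → ℤ) :
    pz (∑ k, c k • g k) z = ∑ k, c k * pz (g k) z := by
  unfold pz
  simp only [Finset.sum_apply, Pi.smul_apply, smul_eq_mul, Finset.sum_mul, Finset.mul_sum]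
  rw [Finset.sum_comm]
  exact Finset.sum_congr rfl fun k _ => Finset.sum_congr rfl fun i _ => by ring

/-- an integer vector orthogonal to a spanning family vanishes -/
theorem eq_zero_of_span (g : Fin 4 → Fin 3 → ℝ)
    (hspan : ∀ m : Fin 3 → ℝ, ∃ c : Fin 4 → ℝ, ∑ k, c k • g k = m) (z : Fin 3 → ℤ)
    (hz : ∀ k, pz (g k) z = 0) : z = 0 := by
  obtain ⟨c, hc⟩ := hspan fun i => (z i : ℝ)
  have h1 : pz (fun i => (z i : ℝ)) z = 0 := by
    rw [← hc, pz_sum_left]
    simp [hz]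
  unfold pz at h1
  have h2 := (Finset.sum_eq_zero_iff_of_nonneg fun i _ => mul_self_nonneg (z i : ℝ)).1 h1
  funext i
  have h3 := h2 i (Finset.mem_univ i)
  exact_mod_cast mul_self_eq_zero.1 h3

/-- walking along the chain as long as the steps do not decrease -/
theorem walk (v s : Fin 4 → ℝ) (hv : ∀ k, v (k + 1) = v k + s k) (j : Fin 4)
    (hs : ∀ l, l ≠ j → 0 ≤ s l) (k : Fin 4) : v k ≤ v j := by
  have e0 := hv 0
  have e1 := hv 1
  have e2 := hv 2
  have e3 := hv 3
  have a0 : (0 : Fin 4) + 1 = 1 := rfl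
  have a1 : (1 : Fin 4) + 1 = 2 := rfl
  have a2 : (2 : Fin 4) + 1 = 3 := rfl
  have a3 : (3 : Fin 4) + 1 = 0 := rfl
  rw [a0] at e0
  rw [a1] at e1
  rw [a2] at e2
  rw [a3] at e3
  have h0 : j ≠ 0 → 0 ≤ s 0 := fun h => hs 0 h.symm
  have h1 : j ≠ 1 → 0 ≤ s 1 := fun h => hs 1 h.symm
  have h2 : j ≠ 2 → 0 ≤ s 2 := fun h => hs 2 h.symm
  have h3 : j ≠ 3 → 0 ≤ s 3 := fun h => hs 3 h.symm
  fin_cases j
  · have b1 := h1 (by decide)
    have b2 := h2 (by decide)
    have b3 := h3 (by decide)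
    show v k ≤ v 0
    fin_cases k
    · exact le_refl _
    · show v 1 ≤ v 0; linarith
    · show v 2 ≤ v 0; linarith
    · show v 3 ≤ v 0; linarith
  · have b0 := h0 (by decide)
    have b2 := h2 (by decide)
    have b3 := h3 (by decide)
    show v k ≤ v 1
    fin_cases k
    · show v 0 ≤ v 1; linarith
    · exact le_refl _
    · show v 2 ≤ v 1; linarith
    · show v 3 ≤ v 1; linarith
  · have b0 := h0 (by decide)
    have b1 := h1 (by decide)
    have b3 := h3 (by decide)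
    show v k ≤ v 2
    fin_cases k
    · show v 0 ≤ v 2; linarith
    · show v 1 ≤ v 2; linarith
    · exact le_refl _
    · show v 3 ≤ v 2; linarith
  · have b0 := h0 (by decide)
    have b1 := h1 (by decide)
    have b2 := h2 (by decide)
    show v k ≤ v 3
    fin_cases k
    · show v 0 ≤ v 3; linarith
    · show v 1 ≤ v 3; linarith
    · show v 2 ≤ v 3; linarith
    · exact le_refl _

/-- no vector of a superbase vanishes -/
theorem superbase_ne_zero (f : Fin 4 → Fin 3 → ℤ) (hf : Superbase f) (l : Fin 4) : f l ≠ 0 := by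
  intro h0
  obtain ⟨m, hm⟩ := real_dual f hf (fun i => if i = l then 3 else -1) (by
    rw [Fin.sum_univ_four]
    fin_cases l <;> simp <;> norm_num)
  have h1 := hm l
  rw [h0, if_pos rfl] at h1
  simp [pz] at h1

/-- **Cone lemma for a chain.** -/
theorem chain_width (f : Fin 4 → Fin 3 → ℤ) (hf : Superbase f) (P : Fin 4 → Fin 3 → ℤ)
    (hP : ∀ k, P (k + 1) = P k + f k) (g : Fin 4 → Fin 3 → ℝ) (hg0 : ∀ j, g j ≠ 0)
    (hg : ∑ k, g k = 0) (hspan : ∀ m : Fin 3 → ℝ, ∃ c : Fin 4 → ℝ, ∑ k, c k • g k = m)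
    (K : Set (Fin 3 → ℝ)) (hK : Bornology.IsBounded K)
    (hsub : ∀ k, ∀ x ∈ K, pr (g k) x ≤ pz (g k) (P k))
    (pos : Fin 4 → Fin 4) (hpos : ∀ k l, l ≠ pos k → 0 ≤ pz (g k) (f l)) :
    WidthLe K (2 + Real.sqrt 2) := by
  classical
  have hcol : ∀ l, ∑ k, pz (g k) (f l) = 0 := by
    intro l
    have h1 := pz_sum_left g (fun _ => 1) (f l)
    simp only [one_smul, one_mul] at h1
    rw [← h1, hg]
    simp [pz]
  have hsurj : Function.Surjective pos := by
    intro l
    by_contra hcon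
    push Not at hcon
    have h1 : ∀ k, 0 ≤ pz (g k) (f l) := fun k => hpos k l fun h => hcon k h.symm
    have h2 := (Finset.sum_eq_zero_iff_of_nonneg fun k _ => h1 k).1 (hcol l)
    exact superbase_ne_zero f hf l
      (eq_zero_of_span g hspan (f l) fun k => h2 k (Finset.mem_univ k))
  let e : Equiv.Perm (Fin 4) := Equiv.ofBijective pos (Finite.surjective_iff_bijective.1 hsurj)
  have he : ∀ k, pos (e.symm k) = k := fun k => e.apply_symm_apply k
  refine width_chain f hf P hP (fun k => g (e.symm k)) ?_ K hK ?_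
  · intro k
    refine ⟨hg0 _, fun l hl => hpos _ l ?_⟩
    rw [he]
    exact hl
  · intro k x hx
    refine (hsub (e.symm k) x hx).trans ?_
    have h1 := walk (fun m => pz (g (e.symm k)) (P m)) (fun m => pz (g (e.symm k)) (f m))
      (fun m => by
        show pz (g (e.symm k)) (P (m + 1)) = _
        rw [hP m, pz_add]) k (fun l hl => hpos _ l (by rw [he]; exact hl)) (e.symm k)
    exact h1

/-- the order of the points for the six cones -/
def TT : Fin 6 → Fin 4 → Fin 4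
  | 0 => ![0, 1, 2, 3]
  | 1 => ![0, 3, 2, 1]
  | 2 => ![0, 1, 3, 2]
  | 3 => ![0, 2, 3, 1]
  | 4 => ![0, 2, 1, 3]
  | 5 => ![0, 3, 1, 2]

/-- the superbases of the six cones: plus and minus `f`, plus and minus the flips of the opposite
pairs, in the order of their chains -/
def CA : Fin 6 → Fin 4 → Fin 4 → ℤ
  | 0 => ![un 0, un 1, un 2, un 3]
  | 1 => ![-un 3, -un 2, -un 1, -un 0]
  | 2 => ![un 0, un 1 + un 2, -un 2, un 2 + un 3]
  | 3 => ![-un 2 - un 3, un 2, -un 1 - un 2, -un 0]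
  | 4 => ![un 0 + un 1, -un 1, un 1 + un 2, un 3]
  | 5 => ![-un 3, -un 1 - un 2, un 1, -un 0 - un 1]

/-- inverses -/
def CB : Fin 6 → Fin 4 → Fin 4 → ℤ
  | 0 => ![un 0, un 1, un 2, un 3]
  | 1 => ![-un 3, -un 2, -un 1, -un 0]
  | 2 => ![un 0, un 1 + un 2, -un 2, un 2 + un 3]
  | 3 => ![-un 3, -un 1 - un 2, un 1, -un 0 - un 1]
  | 4 => ![un 0 + un 1, -un 1, un 1 + un 2, un 3]
  | 5 => ![-un 2 - un 3, un 2, -un 1 - un 2, -un 0]

theorem uni_six : ∀ i : Fin 6, Uni (CA i) (CB i) := by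
  decide +kernel

/-- the inverse orders -/
def TI : Fin 6 → Fin 4 → Fin 4
  | 0 => ![0, 1, 2, 3]
  | 1 => ![0, 3, 2, 1]
  | 2 => ![0, 1, 3, 2]
  | 3 => ![0, 3, 1, 2]
  | 4 => ![0, 2, 1, 3]
  | 5 => ![0, 2, 3, 1]

theorem TT_TI : ∀ i : Fin 6, ∀ k, TT i (TI i k) = k ∧ TI i (TT i k) = k := by decide

/-- the order `TT i` as a permutation -/
def TE (i : Fin 6) : Equiv.Perm (Fin 4) :=
  ⟨TT i, TI i, fun k => (TT_TI i k).2, fun k => (TT_TI i k).1⟩

/-- the walk as a combination of the steps: `P k = P 0 + sum_(j < k) f j` -/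
def wk (k : Fin 4) : Fin 4 → ℤ := fun j => if j < k then 1 else 0

/-- the chain identity for the six orders, up to the relation `sum f = 0` -/
theorem chain_six : ∀ i : Fin 6, ∀ k l : Fin 4,
    wk (TT i (k + 1)) l - wk (TT i k) l - CA i k l
      = wk (TT i (k + 1)) 0 - wk (TT i k) 0 - CA i k 0 := by
  decide +kernel

theorem point_wk (f P : Fin 4 → Fin 3 → ℤ) (hP : ∀ k, P (k + 1) = P k + f k) (k : Fin 4) :
    P k = P 0 + ∑ l, wk k l • f l := by
  have e0 : P 1 = P 0 + f 0 := hP 0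
  have e1 : P 2 = P 1 + f 1 := hP 1
  have e2 : P 3 = P 2 + f 2 := hP 2
  rw [Fin.sum_univ_four]
  fin_cases k
  · simp [wk]
  · show P 1 = _
    rw [e0]
    simp [wk]
  · show P 2 = _
    rw [e1, e0]
    simp [wk]
    abel
  · show P 3 = _
    rw [e2, e1, e0]
    simp [wk]
    abel

/-- **The six M-cones of a chain simplex.** -/
theorem cone_width_chain (i : Fin 6) (f : Fin 4 → Fin 3 → ℤ) (hf : Superbase f)
    (P : Fin 4 → Fin 3 → ℤ) (hP : ∀ k, P (k + 1) = P k + f k) (g : Fin 4 → Fin 3 → ℝ)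
    (hg0 : ∀ j, g j ≠ 0) (hg : ∑ k, g k = 0)
    (hspan : ∀ m : Fin 3 → ℝ, ∃ c : Fin 4 → ℝ, ∑ k, c k • g k = m)
    (K : Set (Fin 3 → ℝ)) (hK : Bornology.IsBounded K)
    (hsub : ∀ k, ∀ x ∈ K, pr (g k) x ≤ pz (g k) (P k))
    (s : ℝ) (hs : 0 < s) (G : Fin 4 → Fin 4 → ℝ) (hG : ∀ l j, G l j = s * pz (g j) (f l))
    (pos : Fin 4 → Fin 4) (hpos : ∀ j m, m ≠ pos j → 0 ≤ ∑ l, (CA i m l : ℝ) * G l j) :
    WidthLe K (2 + Real.sqrt 2) := by
  have hc := chain_six i
  refine chain_width (comb (CA i) f) (superbase_comb (CA i) (CB i) (uni_six i) f hf)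
    (fun k => P (TE i k)) ?_ (fun k => g (TE i k)) (fun k => hg0 _) ?_ ?_ K hK
    (fun k x hx => hsub _ x hx) (fun k => pos (TE i k)) ?_
  · intro k
    show P (TT i (k + 1)) = P (TT i k) + comb (CA i) f k
    rw [point_wk f P hP (TT i (k + 1)), point_wk f P hP (TT i k)]
    have h1 : ∑ l, wk (TT i (k + 1)) l • f l
        = ∑ l, wk (TT i k) l • f l + comb (CA i) f k
          + ∑ l, (wk (TT i (k + 1)) 0 - wk (TT i k) 0 - CA i k 0) • f l := by
      unfold comb
      rw [← Finset.sum_add_distrib, ← Finset.sum_add_distrib]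
      refine Finset.sum_congr rfl fun l _ => ?_
      rw [← add_smul, ← add_smul]
      congr 1
      have := hc k l
      linarith
    rw [h1, ← Finset.smul_sum, hf.sum, smul_zero, add_zero, add_assoc]
  · rw [← hg]
    exact Equiv.sum_comp (TE i) g
  · intro m
    obtain ⟨c, hc'⟩ := hspan m
    refine ⟨fun k => c (TE i k), ?_⟩
    rw [← hc']
    exact Equiv.sum_comp (TE i) fun k => c k • g k
  · intro k m hm
    have h1 := hpos (TE i k) m hm
    have h2 : ∑ l, (CA i m l : ℝ) * G l (TE i k) = s * pz (g (TE i k)) (comb (CA i) f m) := by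
      rw [pz_comb, Finset.mul_sum]
      exact Finset.sum_congr rfl fun l _ => by rw [hG]; ring
    rw [h2] at h1
    exact nonneg_of_mul_nonneg_right h1 hs

end Pool.Agent.Helper82.TET
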