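import Pool.Agent.Helper82.TET.XFact
import Pool.Agent.Helper42.TET.Rot
import Pool.Agent.Helper38.TET.Defs

/-!
# From a body in an obtuse chain simplex to the facts of the certificate
-/

set_option autoImplicit false

namespace Pool.Agent.Helper82.TET

open Matrix Pool.Agent.Helper22.Sym Pool.Agent.Helper24.UB
open Pool.Agent.Helper84.FL (Superbase WidthLe)
open Pool.Agent.Helper12.LW (LFree)

/-- a superbase has integer potentials -/
theorem superb_of_superbase (f : Fin 4 → Fin 3 → ℤ) (hf : Superbase f) :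
    ∃ u : Fin 4 → Fin 3 → ℤ, Superb f u := by
  obtain ⟨w, hw⟩ := Pool.Agent.Helper84.FL.dual_basis f hf
  refine ⟨w, hf.sum, fun i j l => ?_⟩
  have h1 : ∀ i, w i ⬝ᵥ f l = (if l = i then 1 else 0) - (if l = 3 then 1 else 0) := fun i => hw i l
  rw [sub_dotProduct, h1, h1]
  have h2 : ∀ i : Fin 4, (if l = i then (1 : ℤ) else 0) = if i = l then 1 else 0 := fun i => by
    by_cases h : l = i
    · rw [if_pos h, if_pos h.symm]
    · rw [if_neg h, if_neg fun h' => h h'.symm]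
  rw [h2 i, h2 j]
  ring

/-- potentials give the superbase property -/
theorem superbase_of_superb (f u : Fin 4 → Fin 3 → ℤ) (h : Superb f u) : Superbase f := by
  refine ⟨h.1, fun z => ⟨fun l => u l ⬝ᵥ z, ?_⟩⟩
  have h1 := repr_vec f u h (toR z)
  funext i
  have h2 := congrFun h1 i
  rw [Finset.sum_apply] at h2 ⊢
  simp only [Pool.Agent.Helper18.UBd.toR_dot, Pi.smul_apply, smul_eq_mul] at h2 ⊢
  have h3 : ((∑ l, (u l ⬝ᵥ z) * f l i : ℤ) : ℝ) = (z i : ℝ) := by
    push_cast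
    exact h2
  exact_mod_cast h3.symm

/-- the system of an obtuse chain whose vectors span -/
theorem exists_sys {K : Set (Fin 3 → ℝ)} {f P : Fin 4 → Fin 3 → ℤ} {g : Fin 4 → Fin 3 → ℝ}
    (h : Pool.Agent.Helper38.TET.OChain K f P g)
    (hspan : ∀ m : Fin 3 → ℝ, ∃ c : Fin 4 → ℝ, ∑ k, c k • g k = m) : Nonempty (Sys K) := by
  obtain ⟨u, hu⟩ := superb_of_superbase f h.super
  exact ⟨⟨f, u, hu, P, h.step, g, h.sum_g, hspan, h.norm, h.sub, h.obt⟩⟩

theorem TT_eq : ∀ i m, Pool.Agent.Helper44.CK.TT i m = TT i m := by decide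

namespace Sys

variable {K : Set (Fin 3 → ℝ)} (S : Sys K)

theorem G_col (j : Fin 4) : ∑ l, S.G l j = 0 := by
  have h0 : S.G 0 j = S.c 0 j - S.c 1 j := rfl
  have h1 : S.G 1 j = S.c 1 j - S.c 2 j := rfl
  have h2 : S.G 2 j = S.c 2 j - S.c 3 j := rfl
  have h3 : S.G 3 j = S.c 3 j - S.c 0 j := rfl
  rw [Fin.sum_univ_four, h0, h1, h2, h3]
  ring

theorem c_walk (k j : Fin 4) : S.c k j = S.c 0 j - ∑ l, (wk k l : ℝ) * S.G l j := by
  have h0 : S.G 0 j = S.c 0 j - S.c 1 j := rfl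
  have h1 : S.G 1 j = S.c 1 j - S.c 2 j := rfl
  have h2 : S.G 2 j = S.c 2 j - S.c 3 j := rfl
  rw [Fin.sum_univ_four, h0, h1, h2]
  fin_cases k
  · simp [wk]
  · show S.c 1 j = _
    simp [wk]
  · show S.c 2 j = _
    simp [wk]
  · show S.c 3 j = _
    simp [wk]

theorem c_step (i : Fin 6) (m j : Fin 4) :
    S.c (TT i m) j - S.c (TT i (m + 1)) j = ∑ l, (CA i m l : ℝ) * S.G l j := by
  rw [S.c_walk (TT i m) j, S.c_walk (TT i (m + 1)) j]
  have h1 : ∀ l, (wk (TT i (m + 1)) l : ℝ) - wk (TT i m) l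
      = CA i m l + ((wk (TT i (m + 1)) 0 : ℝ) - wk (TT i m) 0 - CA i m 0) := by
    intro l
    have h2 := chain_six i m l
    have h3 : wk (TT i (m + 1)) l - wk (TT i m) l
      = CA i m l + (wk (TT i (m + 1)) 0 - wk (TT i m) 0 - CA i m 0) := by omega
    exact_mod_cast h3
  have h2 : ∑ l, ((wk (TT i (m + 1)) l : ℝ) - wk (TT i m) l) * S.G l j
      = ∑ l, (CA i m l : ℝ) * S.G l j := by
    rw [Finset.sum_congr rfl fun l _ => by rw [h1 l, add_mul], Finset.sum_add_distrib,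
      ← Finset.mul_sum, S.G_col, mul_zero, add_zero]
  rw [← h2]
  simp only [sub_mul, Finset.sum_sub_distrib]
  ring

theorem g_ne (j : Fin 4) : S.g j ≠ 0 := by
  intro h0
  -- the matrix with rows `g` of the other three indices has determinant zero
  obtain ⟨j1, j2, j3, hj⟩ : ∃ j1 j2 j3 : Fin 4, ∀ F : Fin 4 → Fin 3 → ℝ,
      ∑ k, F k = F j + (F j1 + F j2 + F j3) := by
    fin_cases j
    · exact ⟨1, 2, 3, fun F => by
        rw [Fin.sum_univ_four]; show _ = F 0 + _; abel⟩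
    · exact ⟨0, 2, 3, fun F => by
        rw [Fin.sum_univ_four]; show _ = F 1 + _; abel⟩
    · exact ⟨0, 1, 3, fun F => by
        rw [Fin.sum_univ_four]; show _ = F 2 + _; abel⟩
    · exact ⟨0, 1, 2, fun F => by
        rw [Fin.sum_univ_four]; show _ = F 3 + _; abel⟩
  have h3 : S.g j3 = -(S.g j1 + S.g j2) := by
    have := hj S.g
    rw [S.hg, h0, zero_add] at this
    exact eq_neg_of_add_eq_zero_right this.symm
  -- a nonzero vector orthogonal to `g j1`, `g j2`
  obtain ⟨x, hx0, hx1, hx2⟩ : ∃ x : Fin 3 → ℝ, x ≠ 0 ∧ S.g j1 ⬝ᵥ x = 0 ∧ S.g j2 ⬝ᵥ x = 0 := by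
    have hdet : (Matrix.of ![S.g j1, S.g j2, 0]).det = 0 := by
      apply Matrix.det_eq_zero_of_row_eq_zero 2
      intro i
      simp
    obtain ⟨x, hx, hx'⟩ := Matrix.exists_mulVec_eq_zero_iff.2 hdet
    refine ⟨x, hx, ?_, ?_⟩
    · have := congrFun hx' 0
      simpa [mulVec] using this
    · have := congrFun hx' 1
      simpa [mulVec] using this
  obtain ⟨i, hi⟩ := S.ne_of_span hx0
  obtain ⟨d, hd⟩ := S.hspan x
  have h4 : x ⬝ᵥ x = 0 := by
    conv_lhs => rw [← hd]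
    rw [dotProduct_comm, dotProduct_sum]
    have h5 := hj (fun k => d k • S.g k)
    have h6 : ∑ i, x ⬝ᵥ d i • S.g i = x ⬝ᵥ ∑ i, d i • S.g i := by rw [dotProduct_sum]
    rw [hd]
    rw [h6, h5, h0, h3, smul_zero, zero_add, dotProduct_add, dotProduct_add, dotProduct_smul,
      dotProduct_smul, dotProduct_smul, dotProduct_neg, dotProduct_add, dotProduct_comm x (S.g j1),
      dotProduct_comm x (S.g j2), hx1, hx2]
    simp
  exact hx0 (dotProduct_self_eq_zero.1 h4)

/-- **(M)** -/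
theorem fact_noM (hK : LFree K) (hW : ¬ WidthLe K (2 + Real.sqrt 2)) (i : Fin 6)
    (pos : Fin 4 → Fin 4) :
    ¬ ∀ j m, m ≠ pos j → S.c (TT i (m + 1)) j ≤ S.c (TT i m) j := by
  intro h
  apply hW
  refine cone_width_chain i S.f (superbase_of_superb S.f S.u S.hsb) S.P S.hP S.g S.g_ne S.hg
    S.hspan K hK.compact.isBounded (fun k x hx => S.hsub k x hx) 1 one_pos S.G
    (fun l j => by rw [one_mul, S.G_eq]; rfl) pos ?_
  intro j m hm
  rw [← S.c_step i m j]
  exact sub_nonneg.2 (h j m hm)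

theorem om_le : (577 / 169 : ℝ) ≤ 2 + Real.sqrt 2 := by
  have : (239 / 169 : ℝ) ≤ Real.sqrt 2 := Real.le_sqrt_of_sq_le (by norm_num)
  linarith

/-- all the facts except the order of the row sums -/
theorem pre (hK : LFree K) (hW : ¬ WidthLe K (2 + Real.sqrt 2)) :
    Pool.Agent.Helper42.TET.Pre S.c := by
  have hw : Wide K (577 / 169) := (wide_of_not K _ hW).mono om_le
  have hw0 : (0 : ℝ) < 577 / 169 := by norm_num
  refine ⟨S.c_diag, S.c_sum, fun k j => ?_, S.obtuse, ?_, fun A hA hA' => ?_, fun n hn => ?_,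
    fun z hz e he0 _ => ?_, fun i pos => ?_⟩
  · have h1 := S.box hw0 hw k j
    nlinarith
  · have h1 := S.fact_F hw0 hw
    have h2 : ∑ l : Fin 4, ∑ j, (S.c l j - S.c (l + 1) j) ^ 2 = ∑ l, ∑ j, S.G l j ^ 2 := rfl
    rw [h2]
    nlinarith
  · have h1 := S.fact_FA hw0 hw (fun l => if l ∈ A then 1 else 0) (fun l => by
      by_cases h : l ∈ A
      · right; simp [h]
      · left; simp [h]) (by
      obtain ⟨l, hl⟩ := hA
      obtain ⟨m, hm⟩ : ∃ m, m ∉ A := by
        by_contra hcon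
        push Not at hcon
        exact hA' (Finset.eq_univ_iff_forall.2 hcon)
      exact ⟨l, m, by simp [hl, hm]⟩)
    have h2 : ∀ j, ∑ l, (((if l ∈ A then (1 : ℤ) else 0 : ℤ)) : ℝ) * S.G l j
        = ∑ l ∈ A, (S.c l j - S.c (l + 1) j) := by
      intro j
      have h3 : ∀ l, (((if l ∈ A then (1 : ℤ) else 0 : ℤ)) : ℝ) * S.G l j
          = if l ∈ A then S.c l j - S.c (l + 1) j else 0 := by
        intro l
        by_cases h : l ∈ A
        · simp [h, G]
        · simp [h]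
      simp only [h3]
      rw [Finset.sum_ite_mem, Finset.univ_inter]
    simp only [h2] at h1
    have h3 : ∑ l : Fin 4, ∑ j, (S.c l j - S.c (l + 1) j) ^ 2 = ∑ l, ∑ j, S.G l j ^ 2 := rfl
    rw [h3]
    nlinarith
  · exact S.fact_wid hw n hn
  · exact S.fact_cut hw hK z hz e he0
  · intro h
    refine S.fact_noM hK hW i pos fun j m hm => ?_
    have h1 := h j m hm
    rw [TT_eq, TT_eq] at h1
    exact h1

end Sys

/-- **The glue**: a lattice-free convex body inside an obtuse chain simplex, of width larger than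
`2 + √2`, gives a matrix with all the facts of the certificate. -/
theorem exists_facts {K : Set (Fin 3 → ℝ)} {f P : Fin 4 → Fin 3 → ℤ} {g : Fin 4 → Fin 3 → ℝ}
    (hK : LFree K) (h : Pool.Agent.Helper38.TET.OChain K f P g)
    (hspan : ∀ m : Fin 3 → ℝ, ∃ c : Fin 4 → ℝ, ∑ k, c k • g k = m)
    (hW : ¬ WidthLe K (2 + Real.sqrt 2)) : ∃ D, Pool.Agent.Helper44.CK.Facts D := by
  obtain ⟨S⟩ := exists_sys h hspan
  exact Pool.Agent.Helper42.TET.exists_facts (S.pre hK hW)

end Pool.Agent.Helper82.TET
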