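import Pool.Agent.Helper84.FL.Final

/-!
# Leaf of the M-cones

If the four facet functionals of a lattice-free simplex each have at most one negative product with
the vectors of one superbase, then the width is at most `2 + √2`.  The superbases used are `± f` and
plus or minus the six flips of `f`.
-/

set_option autoImplicit false

namespace Pool.Agent.Helper82.TET

open Pool.Agent.Helper84.FL

/-- integer combinations of the vectors of `f` -/
def comb (A : Fin 4 → Fin 4 → ℤ) (f : Fin 4 → Fin 3 → ℤ) (m : Fin 4) : Fin 3 → ℤ :=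
  ∑ l, A m l • f l

theorem pz_comb (A : Fin 4 → Fin 4 → ℤ) (f : Fin 4 → Fin 3 → ℤ) (n : Fin 3 → ℝ) (m : Fin 4) :
    pz n (comb A f m) = ∑ l, (A m l : ℝ) * pz n (f l) := by
  unfold pz comb
  simp only [Finset.sum_apply, Pi.smul_apply, smul_eq_mul, Int.cast_sum, Int.cast_mul,
    Finset.mul_sum]
  rw [Finset.sum_comm]
  exact Finset.sum_congr rfl fun l _ => Finset.sum_congr rfl fun k _ => by ring

/-- `A` has constant column sums and `B A` is the identity up to constants in the rows. -/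
def Uni (A B : Fin 4 → Fin 4 → ℤ) : Prop :=
  (∀ l, ∑ m, A m l = ∑ m, A m 0) ∧
  ∀ l l', ∑ m, B l m * A m l' = (if l = l' then 1 else 0) + (∑ m, B l m * A m 0 - if l = 0 then 1
    else 0)

instance (A B : Fin 4 → Fin 4 → ℤ) : Decidable (Uni A B) := by
  unfold Uni; infer_instance

theorem superbase_comb (A B : Fin 4 → Fin 4 → ℤ) (h : Uni A B) (f : Fin 4 → Fin 3 → ℤ)
    (hf : Superbase f) : Superbase (comb A f) := by
  obtain ⟨h1, h2⟩ := h
  refine ⟨?_, ?_⟩
  · unfold comb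
    rw [Finset.sum_comm]
    have : ∀ l, ∑ m, A m l • f l = (∑ m, A m 0) • f l := fun l => by
      rw [← Finset.sum_smul, h1 l]
    rw [Finset.sum_congr rfl fun l _ => this l, ← Finset.smul_sum, hf.sum, smul_zero]
  · have key : ∀ l, f l = ∑ m, B l m • comb A f m := by
      intro l
      unfold comb
      have e1 : ∑ m, B l m • ∑ l', A m l' • f l' = ∑ l', (∑ m, B l m * A m l') • f l' := by
        simp only [Finset.smul_sum, Finset.sum_smul, smul_smul]
        exact Finset.sum_comm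
      rw [e1, Finset.sum_congr rfl fun l' _ => by rw [h2 l l', add_smul]]
      rw [Finset.sum_add_distrib, ← Finset.smul_sum, hf.sum, smul_zero, add_zero]
      simp
    intro z
    obtain ⟨a, ha⟩ := hf.span z
    refine ⟨fun m => ∑ l, a l * B l m, ?_⟩
    rw [ha]
    have e2 : ∀ l, a l • f l = ∑ m, (a l * B l m) • comb A f m := fun l => by
      conv_lhs => rw [key l]
      rw [Finset.smul_sum]
      exact Finset.sum_congr rfl fun m _ => by rw [smul_smul]
    rw [Finset.sum_congr rfl fun l _ => e2 l, Finset.sum_comm]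
    exact Finset.sum_congr rfl fun m _ => by rw [Finset.sum_smul]

/-- **Cone lemma.**  A convex body inside a lattice-free simplex whose four facet functionals have
at most one negative product with the vectors of a superbase. -/
theorem cone_width (f : Fin 4 → Fin 3 → ℤ) (hf : Superbase f) (g : Fin 4 → Fin 3 → ℝ)
    (b : Fin 4 → ℝ) (hg0 : ∀ j, g j ≠ 0) (K : Set (Fin 3 → ℝ)) (hK : Bornology.IsBounded K)
    (hsub : ∀ x ∈ K, ∀ j, pr (g j) x ≤ b j) (hfree : ∀ z : Fin 3 → ℤ, ∃ j, b j ≤ pz (g j) z)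
    (pos : Fin 4 → Fin 4) (hpos : ∀ j l, l ≠ pos j → 0 ≤ pz (g j) (f l)) :
    WidthLe K (2 + Real.sqrt 2) := by
  refine final f hf K hK fun z => ?_
  obtain ⟨j, hj⟩ := hfree z
  exact ⟨g j, pos j, ⟨hg0 j, fun l hl => hpos j l hl⟩, fun x hx => (hsub x hx j).trans hj⟩

/-- The cone lemma for an integer combination `comb A f` of the superbase, in terms of a positive
multiple `G l j` of the products `g j · f l`. -/
theorem cone_width_comb (A B : Fin 4 → Fin 4 → ℤ) (h : Uni A B) (f : Fin 4 → Fin 3 → ℤ)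
    (hf : Superbase f) (g : Fin 4 → Fin 3 → ℝ)
    (b : Fin 4 → ℝ) (hg0 : ∀ j, g j ≠ 0) (K : Set (Fin 3 → ℝ)) (hK : Bornology.IsBounded K)
    (hsub : ∀ x ∈ K, ∀ j, pr (g j) x ≤ b j) (hfree : ∀ z : Fin 3 → ℤ, ∃ j, b j ≤ pz (g j) z)
    (s : ℝ) (hs : 0 < s) (G : Fin 4 → Fin 4 → ℝ) (hG : ∀ l j, G l j = s * pz (g j) (f l))
    (pos : Fin 4 → Fin 4) (hpos : ∀ j m, m ≠ pos j → 0 ≤ ∑ l, (A m l : ℝ) * G l j) :
    WidthLe K (2 + Real.sqrt 2) := by
  refine cone_width (comb A f) (superbase_comb A B h f hf) g b hg0 K hK hsub hfree pos ?_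
  intro j m hm
  have h1 := hpos j m hm
  have h2 : ∑ l, (A m l : ℝ) * G l j = s * pz (g j) (comb A f m) := by
    rw [pz_comb, Finset.mul_sum]
    exact Finset.sum_congr rfl fun l _ => by rw [hG]; ring
  rw [h2] at h1
  exact nonneg_of_mul_nonneg_right h1 hs

/-- unit rows -/
def un (l : Fin 4) : Fin 4 → ℤ := fun i => if i = l then 1 else 0

/-- The fourteen matrices: `0`, `1`: plus and minus `f`; then for the six pairs `(l, m)` the flip
`- f l, f m, f l + f s, f l + f t` and its negative. -/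
def AA : Fin 14 → Fin 4 → Fin 4 → ℤ
  | 0 => ![un 0, un 1, un 2, un 3]
  | 1 => ![-un 0, -un 1, -un 2, -un 3]
  | 2 => ![-un 0, un 1, un 0 + un 2, un 0 + un 3]
  | 3 => ![un 0, -un 1, -un 0 - un 2, -un 0 - un 3]
  | 4 => ![-un 0, un 0 + un 1, un 2, un 0 + un 3]
  | 5 => ![un 0, -un 0 - un 1, -un 2, -un 0 - un 3]
  | 6 => ![-un 0, un 0 + un 1, un 0 + un 2, un 3]
  | 7 => ![un 0, -un 0 - un 1, -un 0 - un 2, -un 3]
  | 8 => ![un 1 + un 0, -un 1, un 2, un 1 + un 3]
  | 9 => ![-un 1 - un 0, un 1, -un 2, -un 1 - un 3]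
  | 10 => ![un 1 + un 0, -un 1, un 1 + un 2, un 3]
  | 11 => ![-un 1 - un 0, un 1, -un 1 - un 2, -un 3]
  | 12 => ![un 2 + un 0, un 2 + un 1, -un 2, un 3]
  | 13 => ![-un 2 - un 0, -un 2 - un 1, un 2, -un 3]

/-- the inverses up to constants in the rows -/
def BB : Fin 14 → Fin 4 → Fin 4 → ℤ
  | 0 => ![un 0, un 1, un 2, un 3]
  | 1 => ![-un 0, -un 1, -un 2, -un 3]
  | 2 => ![-un 0, un 1, un 0 + un 2, un 0 + un 3]
  | 3 => ![un 0, -un 1, -un 0 - un 2, -un 0 - un 3]
  | 4 => ![-un 0, un 0 + un 1, un 2, un 0 + un 3]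
  | 5 => ![un 0, -un 0 - un 1, -un 2, -un 0 - un 3]
  | 6 => ![-un 0, un 0 + un 1, un 0 + un 2, un 3]
  | 7 => ![un 0, -un 0 - un 1, -un 0 - un 2, -un 3]
  | 8 => ![un 1 + un 0, -un 1, un 2, un 1 + un 3]
  | 9 => ![-un 1 - un 0, un 1, -un 2, -un 1 - un 3]
  | 10 => ![un 1 + un 0, -un 1, un 1 + un 2, un 3]
  | 11 => ![-un 1 - un 0, un 1, -un 1 - un 2, -un 3]
  | 12 => ![un 2 + un 0, un 2 + un 1, -un 2, un 3]
  | 13 => ![-un 2 - un 0, -un 2 - un 1, un 2, -un 3]

theorem uni_all : ∀ i : Fin 14, Uni (AA i) (BB i) := by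
  decide +kernel

end Pool.Agent.Helper82.TET
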