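import Pool.Agent.Helper82.TET.MChain
import Pool.Agent.Helper92.UB.Leaves
import Pool.Agent.Helper18.UBd.Roots
import Pool.Agent.Helper22.Sym.Core

/-!
# Bodies inside an obtuse chain simplex: the slack matrix and Foster's inequalities
-/

set_option autoImplicit false

namespace Pool.Agent.Helper82.TET

open Matrix Pool.Agent.Helper22.Sym Pool.Agent.Helper24.UB

/-- Cauchy-Schwarz for a positive definite matrix and its inverse -/
theorem cs_inv (M : Matrix (Fin 3) (Fin 3) ℝ) (hM : M.PosDef) (u y : Fin 3 → ℝ) :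
    (u ⬝ᵥ y) ^ 2 ≤ (u ⬝ᵥ M⁻¹ *ᵥ u) * (y ⬝ᵥ M *ᵥ y) := by
  have hunit : IsUnit M.det := (Matrix.isUnit_iff_isUnit_det M).1 hM.isUnit
  have hMi : M * M⁻¹ = 1 := Matrix.mul_nonsing_inv M hunit
  set w := M⁻¹ *ᵥ u with hw
  have hMw : M *ᵥ w = u := by rw [hw, Matrix.mulVec_mulVec, hMi, Matrix.one_mulVec]
  have hpos : ∀ v : Fin 3 → ℝ, 0 ≤ v ⬝ᵥ M *ᵥ v := fun v => by
    have := hM.posSemidef.dotProduct_mulVec_nonneg v
    simpa using this
  have hww : w ⬝ᵥ M *ᵥ w = u ⬝ᵥ M⁻¹ *ᵥ u := by rw [hMw, dotProduct_comm]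
  have hyw : y ⬝ᵥ M *ᵥ w = u ⬝ᵥ y := by rw [hMw, dotProduct_comm]
  have hwy : w ⬝ᵥ M *ᵥ y = u ⬝ᵥ y := by rw [symm_form M hM, hyw]
  have hlin : ∀ l : ℝ, 0 ≤ (u ⬝ᵥ M⁻¹ *ᵥ u) * (l * l) + (-2 * (u ⬝ᵥ y)) * l + y ⬝ᵥ M *ᵥ y := by
    intro l
    have := hpos (y - l • w)
    rw [Matrix.mulVec_sub, Matrix.mulVec_smul, dotProduct_sub, sub_dotProduct, sub_dotProduct,
      dotProduct_smul, smul_dotProduct, smul_dotProduct, dotProduct_smul, hww, hyw, hwy] at this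
    simp only [smul_eq_mul] at this
    nlinarith
  have hdisc := discrim_le_zero hlin
  unfold discrim at hdisc
  nlinarith

/-- A convex body inside the simplex `g k · x ≤ g k · P k` through the chain `P` of a superbase `f`
(with potentials `u`) which is obtuse for the form `∑ (g j)(g j)ᵀ`. -/
structure Sys (K : Set (Fin 3 → ℝ)) where
  f : Fin 4 → Fin 3 → ℤ
  u : Fin 4 → Fin 3 → ℤ
  hsb : Superb f u
  P : Fin 4 → Fin 3 → ℤ
  hP : ∀ k, P (k + 1) = P k + f k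
  g : Fin 4 → Fin 3 → ℝ
  hg : ∑ k, g k = 0
  hspan : ∀ m : Fin 3 → ℝ, ∃ c : Fin 4 → ℝ, ∑ k, c k • g k = m
  hone : ∑ k, g k ⬝ᵥ toR (P k) = 1
  hsub : ∀ k, ∀ x ∈ K, g k ⬝ᵥ x ≤ g k ⬝ᵥ toR (P k)
  hob : ∀ l m, l ≠ m → ∑ j, (g j ⬝ᵥ toR (f l)) * (g j ⬝ᵥ toR (f m)) ≤ 0

/-- every width of `K` is larger than `W` -/
def Wide (K : Set (Fin 3 → ℝ)) (W : ℝ) : Prop :=
  ∀ y : Fin 3 → ℤ, y ≠ 0 → ∃ x ∈ K, ∃ x' ∈ K, W < toR y ⬝ᵥ (x - x')

theorem wide_of_not (K : Set (Fin 3 → ℝ)) (W : ℝ) (h : ¬ Pool.Agent.Helper84.FL.WidthLe K W) :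
    Wide K W := by
  intro y hy
  by_contra hcon
  push Not at hcon
  refine h ⟨y, hy, fun x hx x' hx' => ?_⟩
  have h1 := hcon x hx x' hx'
  refine le_trans (le_of_eq ?_) h1
  unfold dotProduct toR
  exact Finset.sum_congr rfl fun i _ => by rw [Pi.sub_apply, mul_comm]

theorem Wide.mono {K : Set (Fin 3 → ℝ)} {W W' : ℝ} (h : Wide K W) (hW : W' ≤ W) : Wide K W' := by
  intro y hy
  obtain ⟨x, hx, x', hx', hlt⟩ := h y hy
  exact ⟨x, hx, x', hx', lt_of_le_of_lt hW hlt⟩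

/-- the general slack matrix -/
def slk (g : Fin 4 → Fin 3 → ℝ) (P : Fin 4 → Fin 3 → ℤ) (k j : Fin 4) : ℝ :=
  g j ⬝ᵥ (toR (P j) - toR (P k))

namespace Sys

variable {K : Set (Fin 3 → ℝ)} (S : Sys K)

/-- the slack matrix: column `k` = the four barycentric coordinates of the point `P k` -/
def c (k j : Fin 4) : ℝ := slk S.g S.P k j

/-- differences of consecutive columns -/
def G (l j : Fin 4) : ℝ := S.c l j - S.c (l + 1) j

/-- the form -/
def Q : Matrix (Fin 3) (Fin 3) ℝ := ∑ j, vecMulVec (S.g j) (S.g j)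

theorem c_diag (k : Fin 4) : S.c k k = 0 := by
  unfold c slk
  rw [sub_self, dotProduct_zero]

theorem sum_g (x : Fin 3 → ℝ) : ∑ j, S.g j ⬝ᵥ x = 0 := by
  rw [← sum_dotProduct, S.hg, zero_dotProduct]

theorem c_sum (k : Fin 4) : ∑ j, S.c k j = 1 := by
  unfold c slk
  simp only [dotProduct_sub]
  rw [Finset.sum_sub_distrib, S.hone, S.sum_g, sub_zero]

theorem G_eq (l j : Fin 4) : S.G l j = S.g j ⬝ᵥ toR (S.f l) := by
  unfold G c slk
  rw [S.hP l]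
  have : toR (S.P l + S.f l) = toR (S.P l) + toR (S.f l) := toR_add _ _
  rw [this]
  simp only [dotProduct_sub, dotProduct_add]
  ring

theorem G_sum (l : Fin 4) : ∑ j, S.G l j = 0 := by
  simp only [G_eq]
  exact S.sum_g _

theorem obtuse (l m : Fin 4) (h : l ≠ m) : ∑ j, S.G l j * S.G m j ≤ 0 := by
  simp only [G_eq]
  exact S.hob l m h

theorem Q_form (x y : Fin 3 → ℝ) : x ⬝ᵥ S.Q *ᵥ y = ∑ j, (S.g j ⬝ᵥ x) * (S.g j ⬝ᵥ y) := by
  unfold Q
  rw [sum_mulVec, dotProduct_sum]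
  refine Finset.sum_congr rfl fun j _ => ?_
  rw [vecMulVec_mulVec]
  rw [dotProduct_smul, MulOpposite.smul_eq_mul_unop, MulOpposite.unop_op, dotProduct_comm x]

theorem ne_of_span {x : Fin 3 → ℝ} (hx : x ≠ 0) : ∃ j, S.g j ⬝ᵥ x ≠ 0 := by
  by_contra hcon
  push Not at hcon
  obtain ⟨d, hd⟩ := S.hspan x
  have h1 : x ⬝ᵥ x = 0 := by
    conv_lhs => rw [← hd]
    rw [dotProduct_comm, dotProduct_sum]
    refine Finset.sum_eq_zero fun j _ => ?_
    rw [dotProduct_smul, dotProduct_comm, hd, hcon j, smul_zero]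
  exact hx (dotProduct_self_eq_zero.1 h1)

theorem Q_posDef : S.Q.PosDef := by
  refine PosDef.of_dotProduct_mulVec_pos ?_ ?_
  · refine IsHermitian.ext fun a b => ?_
    unfold Q
    simp only [Matrix.sum_apply, vecMulVec_apply, star_trivial]
    exact Finset.sum_congr rfl fun j _ => mul_comm _ _
  · intro x hx
    have h0 : star x = x := by simp
    rw [h0, S.Q_form]
    obtain ⟨j, hj⟩ := S.ne_of_span hx
    exact Finset.sum_pos' (fun i _ => mul_self_nonneg _)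
      ⟨j, Finset.mem_univ j, mul_self_pos.2 hj⟩

/-- the parameters -/
def p (s : Fin 6) : ℝ := -∑ j, S.G (pa s) j * S.G (pb s) j

theorem pa_ne_pb : ∀ s, pa s ≠ pb s := by decide

theorem p_nonneg (s : Fin 6) : 0 ≤ S.p s := by
  have := S.obtuse (pa s) (pb s) (pa_ne_pb s)
  unfold p
  linarith

theorem bil_Q (l m : Fin 4) : bil S.Q (S.f l) (S.f m) = ∑ j, S.G l j * S.G m j := by
  unfold bil
  rw [S.Q_form]
  simp only [G_eq]

theorem expand (x y : Fin 3 → ℝ) :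
    x ⬝ᵥ S.Q *ᵥ y = ∑ s, S.p s * ((toR (rt S.u s) ⬝ᵥ x) * (toR (rt S.u s) ⬝ᵥ y)) := by
  rw [Pool.Agent.Helper18.UBd.expand S.Q S.Q_posDef S.f S.u S.hsb x y]
  refine Finset.sum_congr rfl fun s _ => ?_
  rw [bil_Q]
  rfl

/-- the inverse form at a root -/
noncomputable def κ (s : Fin 6) : ℝ := toR (rt S.u s) ⬝ᵥ S.Q⁻¹ *ᵥ toR (rt S.u s)

theorem foster : ∑ s, S.p s * S.κ s = 3 :=
  Pool.Agent.Helper92.UB.kappa_sum S.Q S.Q_posDef S.p (fun s => rt S.u s) S.expand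

theorem rt_ne (s : Fin 6) : rt S.u s ≠ 0 :=
  pot_ne S.f S.u S.hsb (pa s) (pb s) (pa_ne_pb s)

/-- the barycentric coordinates of a point -/
def L (x : Fin 3 → ℝ) (j : Fin 4) : ℝ := S.g j ⬝ᵥ toR (S.P j) - S.g j ⬝ᵥ x

theorem L_nonneg {x : Fin 3 → ℝ} (hx : x ∈ K) (j : Fin 4) : 0 ≤ S.L x j :=
  sub_nonneg.2 (S.hsub j x hx)

theorem L_sum (x : Fin 3 → ℝ) : ∑ j, S.L x j = 1 := by
  unfold L
  rw [Finset.sum_sub_distrib, S.hone, S.sum_g, sub_zero]

theorem diff_sq (a b : Fin 4 → ℝ) (ha : ∀ j, 0 ≤ a j) (hb : ∀ j, 0 ≤ b j) (sa : ∑ j, a j = 1)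
    (sb : ∑ j, b j = 1) : ∑ j, (a j - b j) ^ 2 ≤ 2 := by
  have h1 : ∀ j, a j ≤ 1 := fun j => by
    rw [← sa]; exact Finset.single_le_sum (f := a) (fun i _ => ha i) (Finset.mem_univ j)
  have h2 : ∀ j, b j ≤ 1 := fun j => by
    rw [← sb]; exact Finset.single_le_sum (f := b) (fun i _ => hb i) (Finset.mem_univ j)
  have h3 : ∀ j, (a j - b j) ^ 2 ≤ a j + b j := fun j => by
    nlinarith [ha j, hb j, h1 j, h2 j, mul_nonneg (ha j) (hb j),
      mul_nonneg (ha j) (sub_nonneg.2 (h1 j)), mul_nonneg (hb j) (sub_nonneg.2 (h2 j))]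
  calc ∑ j, (a j - b j) ^ 2 ≤ ∑ j, (a j + b j) := Finset.sum_le_sum fun j _ => h3 j
    _ = 2 := by rw [Finset.sum_add_distrib, sa, sb]; norm_num

theorem κ_ge {W : ℝ} (hW0 : 0 ≤ W) (hW : Wide K W) (s : Fin 6) : W ^ 2 / 2 ≤ S.κ s := by
  obtain ⟨x, hx, x', hx', hlt⟩ := hW (rt S.u s) (S.rt_ne s)
  have h1 := cs_inv S.Q S.Q_posDef (toR (rt S.u s)) (x - x')
  rw [S.Q_form] at h1
  have h2 : ∑ j, (S.g j ⬝ᵥ (x - x')) * (S.g j ⬝ᵥ (x - x')) ≤ 2 := by
    have h3 := diff_sq (S.L x) (S.L x') (S.L_nonneg hx) (S.L_nonneg hx') (S.L_sum x) (S.L_sum x')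
    refine le_trans (le_of_eq ?_) h3
    refine Finset.sum_congr rfl fun j _ => ?_
    unfold L
    rw [dotProduct_sub]
    ring
  have h4 : W ^ 2 ≤ (toR (rt S.u s) ⬝ᵥ (x - x')) ^ 2 := pow_le_pow_left₀ hW0 hlt.le 2
  have h5 : 0 ≤ S.κ s := by
    have := S.Q_posDef.inv.posSemidef.dotProduct_mulVec_nonneg (toR (rt S.u s))
    simpa [κ] using this
  have h6 : W ^ 2 ≤ S.κ s * 2 := by
    refine h4.trans (h1.trans ?_)
    exact mul_le_mul_of_nonneg_left h2 h5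
  linarith

/-- **Foster**: the sum of the parameters -/
theorem P_le {W : ℝ} (hW0 : 0 < W) (hW : Wide K W) : (∑ s, S.p s) * W ^ 2 ≤ 6 := by
  have h1 : ∑ s, S.p s * (W ^ 2 / 2) ≤ ∑ s, S.p s * S.κ s :=
    Finset.sum_le_sum fun s _ => mul_le_mul_of_nonneg_left (S.κ_ge hW0.le hW s) (S.p_nonneg s)
  rw [S.foster, ← Finset.sum_mul] at h1
  linarith

/-- integer combinations of the superbase -/
theorem rt_comb (e : Fin 4 → ℤ) (s : Fin 6) :
    toR (rt S.u s) ⬝ᵥ toR (∑ l, e l • S.f l) = (e (pa s) : ℝ) - e (pb s) := by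
  rw [Pool.Agent.Helper18.UBd.toR_dot]
  have h1 : rt S.u s ⬝ᵥ (∑ l, e l • S.f l) = e (pa s) - e (pb s) := by
    rw [dotProduct_sum]
    have h2 : ∀ l, rt S.u s ⬝ᵥ e l • S.f l
        = e l * ((if pa s = l then 1 else 0) - (if pb s = l then 1 else 0)) := fun l => by
      rw [dotProduct_smul, smul_eq_mul]
      congr 1
      exact S.hsb.2 (pa s) (pb s) l
    simp only [h2, mul_sub, mul_ite, mul_one, mul_zero, Finset.sum_sub_distrib,
      Finset.sum_ite_eq, Finset.mem_univ, if_true]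
  rw [h1]
  push_cast
  ring

theorem g_comb (e : Fin 4 → ℤ) (j : Fin 4) :
    S.g j ⬝ᵥ toR (∑ l, e l • S.f l) = ∑ l, (e l : ℝ) * S.G l j := by
  have h1 : toR (∑ l, e l • S.f l) = ∑ l, (e l : ℝ) • toR (S.f l) := by
    funext i
    simp [toR]
  rw [h1, dotProduct_sum]
  refine Finset.sum_congr rfl fun l _ => ?_
  rw [dotProduct_smul, smul_eq_mul, G_eq]

/-- the length of a combination -/
theorem comb_sq (e : Fin 4 → ℤ) :
    ∑ j, (∑ l, (e l : ℝ) * S.G l j) ^ 2 = ∑ s, S.p s * ((e (pa s) : ℝ) - e (pb s)) ^ 2 := by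
  have h1 := S.expand (toR (∑ l, e l • S.f l)) (toR (∑ l, e l • S.f l))
  rw [S.Q_form] at h1
  simp only [rt_comb, g_comb] at h1
  simp only [sq]
  exact h1

/-- half the sum of the squares of the columns -/
theorem P_eq : ∑ s, S.p s = (1 / 2) * ∑ l, ∑ j, S.G l j ^ 2 := by
  have h1 : ∀ l, ∑ j, S.G l j ^ 2
      = ∑ s, S.p s * (((if pa s = l then 1 else 0 : ℝ)) - (if pb s = l then 1 else 0)) ^ 2 := by
    intro l
    have h2 := S.comb_sq (fun m => if m = l then 1 else 0)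
    simp only [Int.cast_ite, Int.cast_one, Int.cast_zero, ite_mul, one_mul, zero_mul,
      Finset.sum_ite_eq', Finset.mem_univ, if_true] at h2
    exact h2
  simp only [h1]
  rw [Finset.sum_comm, Finset.mul_sum]
  refine Finset.sum_congr rfl fun s _ => ?_
  rw [← Finset.mul_sum]
  have h3 : ∀ s : Fin 6, ∑ l : Fin 4, (((if pa s = l then 1 else 0 : ℝ))
      - (if pb s = l then 1 else 0)) ^ 2 = 2 := by
    intro s
    fin_cases s <;> simp [pa, pb, Fin.sum_univ_four] <;> norm_num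
  rw [h3]
  ring

/-- **(F)** -/
theorem fact_F {W : ℝ} (hW0 : 0 < W) (hW : Wide K W) :
    (∑ l, ∑ j, S.G l j ^ 2) * W ^ 2 ≤ 12 := by
  have h1 := S.P_le hW0 hW
  rw [S.P_eq] at h1
  linarith

theorem comb_pos (e : Fin 4 → ℤ) (he : ∃ l m, e l ≠ e m) :
    0 < ∑ j, (∑ l, (e l : ℝ) * S.G l j) ^ 2 := by
  have hne : toR (∑ l, e l • S.f l) ≠ 0 := by
    intro h0
    obtain ⟨l, m, hlm⟩ := he
    have h1 : ∀ l m, (e l : ℝ) - e m = 0 := by
      intro l m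
      have h2 : toR (S.u l - S.u m) ⬝ᵥ toR (∑ l, e l • S.f l) = (e l : ℝ) - e m := by
        rw [Pool.Agent.Helper18.UBd.toR_dot]
        have h1 : (S.u l - S.u m) ⬝ᵥ (∑ l, e l • S.f l) = e l - e m := by
          rw [dotProduct_sum]
          have h2 : ∀ i, (S.u l - S.u m) ⬝ᵥ e i • S.f i
              = e i * ((if l = i then 1 else 0) - (if m = i then 1 else 0)) := fun i => by
            rw [dotProduct_smul, smul_eq_mul]
            congr 1
            exact S.hsb.2 l m i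
          simp only [h2, mul_sub, mul_ite, mul_one, mul_zero, Finset.sum_sub_distrib,
            Finset.sum_ite_eq, Finset.mem_univ, if_true]
        rw [h1]
        push_cast
        ring
      rw [← h2, h0, dotProduct_zero]
    have h2 := h1 l m
    apply hlm
    have : (e l : ℝ) = e m := by linarith
    exact_mod_cast this
  obtain ⟨j, hj⟩ := S.ne_of_span hne
  rw [g_comb] at hj
  exact Finset.sum_pos' (fun i _ => sq_nonneg _) ⟨j, Finset.mem_univ j, by positivity⟩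

/-- **(F_A)** for the cut given by the zero-one vector `e` -/
theorem fact_FA {W : ℝ} (hW0 : 0 < W) (hW : Wide K W) (e : Fin 4 → ℤ)
    (he : ∀ l, e l = 0 ∨ e l = 1) (hne : ∃ l m, e l ≠ e m) :
    ((1 / 2) * (∑ l, ∑ j, S.G l j ^ 2) - ∑ j, (∑ l, (e l : ℝ) * S.G l j) ^ 2) * W ^ 2 ≤ 4 := by
  rw [← S.P_eq]
  set C : ℝ := ∑ j, (∑ l, (e l : ℝ) * S.G l j) ^ 2 with hC
  have hCpos : 0 < C := S.comb_pos e hne
  have hCeq : C = ∑ s, S.p s * ((e (pa s) : ℝ) - e (pb s)) ^ 2 := S.comb_sq e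
  have hd : ∀ s, ((e (pa s) : ℝ) - e (pb s)) ^ 2 = 0 ∨ ((e (pa s) : ℝ) - e (pb s)) ^ 2 = 1 := by
    intro s
    rcases he (pa s) with h1 | h1 <;> rcases he (pb s) with h2 | h2 <;> rw [h1, h2] <;> norm_num
  have hk : ∀ s, ((e (pa s) : ℝ) - e (pb s)) ^ 2
      + (1 - ((e (pa s) : ℝ) - e (pb s)) ^ 2) * (W ^ 2 / 2 * C) ≤ S.κ s * C := by
    intro s
    rcases hd s with h | h
    · rw [h]
      have := mul_le_mul_of_nonneg_right (S.κ_ge hW0.le hW s) hCpos.le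
      linarith
    · have h1 := cs_inv S.Q S.Q_posDef (toR (rt S.u s)) (toR (∑ l, e l • S.f l))
      rw [S.Q_form, rt_comb] at h1
      simp only [g_comb] at h1
      rw [h] at h1 ⊢
      have h2 : ∑ j, (∑ l, (e l : ℝ) * S.G l j) * (∑ l, (e l : ℝ) * S.G l j) = C := by
        rw [hC]
        exact Finset.sum_congr rfl fun j _ => (sq _).symm
      rw [h2] at h1
      have h3 : S.κ s * C = (toR (rt S.u s) ⬝ᵥ S.Q⁻¹ *ᵥ toR (rt S.u s)) * C := rfl
      linarith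
  have h1 : ∑ s, S.p s * (((e (pa s) : ℝ) - e (pb s)) ^ 2
      + (1 - ((e (pa s) : ℝ) - e (pb s)) ^ 2) * (W ^ 2 / 2 * C)) ≤ ∑ s, S.p s * (S.κ s * C) :=
    Finset.sum_le_sum fun s _ => mul_le_mul_of_nonneg_left (hk s) (S.p_nonneg s)
  have h2 : ∑ s, S.p s * (S.κ s * C) = 3 * C := by
    rw [← S.foster, Finset.sum_mul]
    exact Finset.sum_congr rfl fun s _ => by ring
  have h3 : ∑ s, S.p s * (((e (pa s) : ℝ) - e (pb s)) ^ 2
      + (1 - ((e (pa s) : ℝ) - e (pb s)) ^ 2) * (W ^ 2 / 2 * C))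
      = C + (∑ s, S.p s - C) * (W ^ 2 / 2 * C) := by
    have e1 : ∑ s, S.p s * (((e (pa s) : ℝ) - e (pb s)) ^ 2
      + (1 - ((e (pa s) : ℝ) - e (pb s)) ^ 2) * (W ^ 2 / 2 * C))
      = ∑ s, S.p s * ((e (pa s) : ℝ) - e (pb s)) ^ 2
        + (∑ s, S.p s - ∑ s, S.p s * ((e (pa s) : ℝ) - e (pb s)) ^ 2) * (W ^ 2 / 2 * C) := by
      rw [← Finset.sum_sub_distrib, Finset.sum_mul, ← Finset.sum_add_distrib]
      exact Finset.sum_congr rfl fun s _ => by ring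
    rw [e1, ← hCeq]
  rw [h2, h3] at h1
  have h4 : ((∑ s, S.p s - C) * W ^ 2) * C ≤ 4 * C := by
    have : (∑ s, S.p s - C) * (W ^ 2 / 2 * C) ≤ 2 * C := by linarith
    linarith
  exact le_of_mul_le_mul_right h4 hCpos

/-- all entries are small -/
theorem box {W : ℝ} (hW0 : 0 < W) (hW : Wide K W) (k j : Fin 4) :
    S.c k j ^ 2 * W ^ 2 ≤ 9 / 2 := by
  -- `c k - c j` is a combination with coefficients zero and one, up to sign
  obtain ⟨e, he, hd⟩ : ∃ e : Fin 4 → ℤ, (∀ s : Fin 6, ((e (pa s) : ℝ) - e (pb s)) ^ 2 ≤ 1) ∧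
      ∀ i, S.c k i - S.c j i = ∑ l, (e l : ℝ) * S.G l i := by
    refine ⟨fun l => (if l < j then 1 else 0) - (if l < k then 1 else 0), ?_, ?_⟩
    · have h1 : ∀ (k j : Fin 4) (s : Fin 6),
          (((if pa s < j then 1 else 0) - (if pa s < k then 1 else 0) : ℤ)
            - ((if pb s < j then 1 else 0) - (if pb s < k then 1 else 0) : ℤ)) ^ 2 ≤ 1 := by
        decide
      intro s
      have := h1 k j s
      exact_mod_cast this
    · intro i
      have h0 : S.G 0 i = S.c 0 i - S.c 1 i := rfl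
      have h1 : S.G 1 i = S.c 1 i - S.c 2 i := rfl
      have h2 : S.G 2 i = S.c 2 i - S.c 3 i := rfl
      have h3 : S.G 3 i = S.c 3 i - S.c 0 i := rfl
      rw [Fin.sum_univ_four, h0, h1, h2, h3]
      fin_cases k <;> fin_cases j <;> simp
  have h1 : ∑ i, (S.c k i - S.c j i) ^ 2 ≤ ∑ s, S.p s := by
    simp only [hd]
    rw [S.comb_sq e]
    refine Finset.sum_le_sum fun s _ => ?_
    have := mul_le_mul_of_nonneg_left (he s) (S.p_nonneg s)
    linarith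
  have h2 : ∑ i, (S.c k i - S.c j i) = 0 := by
    rw [Finset.sum_sub_distrib, S.c_sum, S.c_sum, sub_self]
  have h3 : 4 * (S.c k j - S.c j j) ^ 2 ≤ 3 * ∑ i, (S.c k i - S.c j i) ^ 2 := by
    set x : Fin 4 → ℝ := fun i => S.c k i - S.c j i with hx
    have h2' : ∑ i, x i = 0 := h2
    show 4 * (x j) ^ 2 ≤ 3 * ∑ i, x i ^ 2
    rw [Fin.sum_univ_four] at h2' ⊢
    fin_cases j
    · show 4 * x 0 ^ 2 ≤ _
      have : x 0 = -(x 1 + x 2 + x 3) := by linarith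
      rw [this]
      nlinarith [sq_nonneg (x 1 - x 2), sq_nonneg (x 1 - x 3), sq_nonneg (x 2 - x 3)]
    · show 4 * x 1 ^ 2 ≤ _
      have : x 1 = -(x 0 + x 2 + x 3) := by linarith
      rw [this]
      nlinarith [sq_nonneg (x 0 - x 2), sq_nonneg (x 0 - x 3), sq_nonneg (x 2 - x 3)]
    · show 4 * x 2 ^ 2 ≤ _
      have : x 2 = -(x 0 + x 1 + x 3) := by linarith
      rw [this]
      nlinarith [sq_nonneg (x 0 - x 1), sq_nonneg (x 0 - x 3), sq_nonneg (x 1 - x 3)]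
    · show 4 * x 3 ^ 2 ≤ _
      have : x 3 = -(x 0 + x 1 + x 2) := by linarith
      rw [this]
      nlinarith [sq_nonneg (x 0 - x 1), sq_nonneg (x 0 - x 2), sq_nonneg (x 1 - x 2)]
  rw [S.c_diag, sub_zero] at h3
  have h4 := S.P_le hW0 hW
  have h5 : 4 * S.c k j ^ 2 ≤ 3 * ∑ s, S.p s := by linarith
  have h6 := mul_le_mul_of_nonneg_right h5 (sq_nonneg W)
  linarith

end Sys

end Pool.Agent.Helper82.TET
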