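import Pool.Agent.Helper82.TET.Sys
import Pool.Agent.Helper44.CK.Facts
import Pool.Agent.Helper1.UB.LW

/-!
# The width facts and the cut facts
-/

set_option autoImplicit false

namespace Pool.Agent.Helper82.TET

open Matrix Pool.Agent.Helper22.Sym Pool.Agent.Helper24.UB

/-- upper bound over the truncated simplex -/
theorem trunc_le (y l : Fin 4 → ℝ) (k : Fin 4) (e M : ℝ) (hl : ∀ j, 0 ≤ l j) (hs : ∑ j, l j = 1)
    (hk : l k ≤ 1 - e) (h : ∀ i, i ≠ k → y i ≤ M ∧ (1 - e) * y k + e * y i ≤ M) :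
    ∑ j, y j * l j ≤ M := by
  obtain ⟨i, hi, hmax⟩ := Finset.exists_max_image (Finset.univ.erase k) y
    ⟨k + 1, Finset.mem_erase.2 ⟨by
      have : ∀ k : Fin 4, k + 1 ≠ k := by decide
      exact this k, Finset.mem_univ _⟩⟩
  have hik := Finset.ne_of_mem_erase hi
  obtain ⟨h1, h2⟩ := h i hik
  have hsplit : ∑ j ∈ Finset.univ.erase k, l j = 1 - l k := by
    rw [← hs, ← Finset.add_sum_erase _ _ (Finset.mem_univ k)]
    ring
  have h3 : ∑ j, y j * l j ≤ y k * l k + y i * (1 - l k) := by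
    rw [← Finset.add_sum_erase _ _ (Finset.mem_univ k), ← hsplit, Finset.mul_sum]
    have := Finset.sum_le_sum fun j (hj : j ∈ Finset.univ.erase k) =>
      mul_le_mul_of_nonneg_right (hmax j hj) (hl j)
    linarith
  refine h3.trans ?_
  rcases le_total (y k) (y i) with h4 | h4
  · have := mul_le_mul_of_nonneg_right h4 (hl k)
    linarith
  · have := mul_le_mul_of_nonneg_left hk (sub_nonneg.2 h4)
    linarith

namespace Sys

variable {K : Set (Fin 3 → ℝ)} (S : Sys K)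

/-- the integer functional with prescribed differences at the points of the chain -/
theorem exists_vec (n : Fin 4 → ℤ) : ∃ v : Fin 3 → ℤ, ∀ l, v ⬝ᵥ S.f l = n (l + 1) - n l := by
  refine ⟨∑ l, (n (l + 1) - n l) • S.u l, fun m => ?_⟩
  have h1 : ∑ l, (n (l + 1) - n l) • S.u l = ∑ l, (n (l + 1) - n l) • (S.u l - S.u 0) := by
    simp only [smul_sub, Finset.sum_sub_distrib]
    rw [← Finset.sum_smul]
    have h2 : ∑ l : Fin 4, (n (l + 1) - n l) = 0 := by
      rw [Fin.sum_univ_four]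
      have a0 : (0 : Fin 4) + 1 = 1 := rfl
      have a1 : (1 : Fin 4) + 1 = 2 := rfl
      have a2 : (2 : Fin 4) + 1 = 3 := rfl
      have a3 : (3 : Fin 4) + 1 = 0 := rfl
      rw [a0, a1, a2, a3]
      ring
    rw [h2, zero_smul, sub_zero]
  rw [h1, sum_dotProduct]
  have h2 : ∀ l, ((n (l + 1) - n l) • (S.u l - S.u 0)) ⬝ᵥ S.f m
      = (n (l + 1) - n l) * ((if l = m then 1 else 0) - (if 0 = m then 1 else 0)) := fun l => by
    rw [smul_dotProduct, smul_eq_mul, S.hsb.2 l 0 m]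
  simp only [h2]
  rw [Fin.sum_univ_four]
  have a0 : (0 : Fin 4) + 1 = 1 := rfl
  have a1 : (1 : Fin 4) + 1 = 2 := rfl
  have a2 : (2 : Fin 4) + 1 = 3 := rfl
  have a3 : (3 : Fin 4) + 1 = 0 := rfl
  rw [a0, a1, a2, a3]
  fin_cases m <;> simp

/-- the values at the vertices of the simplex -/
theorem exists_val (n : Fin 4 → ℤ) (v : Fin 3 → ℤ) (hv : ∀ l, v ⬝ᵥ S.f l = n (l + 1) - n l) :
    ∃ y : Fin 4 → ℝ, (∀ k, ∑ i, S.c k i * y i = n k) ∧
      ∀ x x' : Fin 3 → ℝ, toR v ⬝ᵥ (x - x') = ∑ j, y j * S.L x j - ∑ j, y j * S.L x' j := by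
  obtain ⟨a, ha⟩ := S.hspan (toR v)
  set t : ℝ := n 0 - ∑ i, S.c 0 i * (-a i) with ht
  refine ⟨fun j => -a j + t, ?_, ?_⟩
  · have h0 : ∑ i, S.c 0 i * (-a i + t) = n 0 := by
      simp only [mul_add, Finset.sum_add_distrib]
      rw [← Finset.sum_mul, S.c_sum, one_mul, ht]
      ring
    have hstep : ∀ l, ∑ i, S.c (l + 1) i * (-a i + t) - n (l + 1)
        = ∑ i, S.c l i * (-a i + t) - n l := by
      intro l
      have h1 : ∑ i, S.c l i * (-a i + t) - ∑ i, S.c (l + 1) i * (-a i + t)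
          = -(toR v ⬝ᵥ toR (S.f l)) := by
        rw [← Finset.sum_sub_distrib, ← ha, sum_dotProduct]
        have h2 : ∀ i, S.c l i * (-a i + t) - S.c (l + 1) i * (-a i + t)
            = S.G l i * t - (a i • S.g i) ⬝ᵥ toR (S.f l) := fun i => by
          rw [smul_dotProduct, smul_eq_mul, ← S.G_eq]
          unfold G
          ring
        simp only [h2]
        rw [Finset.sum_sub_distrib, ← Finset.sum_mul, S.G_sum, zero_mul, zero_sub]
      rw [Pool.Agent.Helper18.UBd.toR_dot, hv l] at h1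
      push_cast at h1
      linarith
    have e0 := hstep 0
    have e1 := hstep 1
    have e2 := hstep 2
    have a0 : (0 : Fin 4) + 1 = 1 := rfl
    have a1 : (1 : Fin 4) + 1 = 2 := rfl
    have a2 : (2 : Fin 4) + 1 = 3 := rfl
    rw [a0] at e0
    rw [a1] at e1
    rw [a2] at e2
    intro k
    fin_cases k
    · exact h0
    · show ∑ i, S.c 1 i * (-a i + t) = n 1
      linarith
    · show ∑ i, S.c 2 i * (-a i + t) = n 2
      linarith
    · show ∑ i, S.c 3 i * (-a i + t) = n 3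
      linarith
  · intro x x'
    rw [← Finset.sum_sub_distrib, ← ha, sum_dotProduct]
    have h2 : ∀ j, (-a j + t) * S.L x j - (-a j + t) * S.L x' j
        = (a j • S.g j) ⬝ᵥ (x - x') + t * (S.L x j - S.L x' j) := fun j => by
      rw [smul_dotProduct, smul_eq_mul, dotProduct_sub]
      unfold L
      ring
    simp only [h2]
    rw [Finset.sum_add_distrib, ← Finset.mul_sum, Finset.sum_sub_distrib, S.L_sum, S.L_sum,
      sub_self, mul_zero, add_zero]

theorem vec_ne {n : Fin 4 → ℤ} (hn : ∃ k, n k ≠ n 0) {v : Fin 3 → ℤ}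
    (hv : ∀ l, v ⬝ᵥ S.f l = n (l + 1) - n l) : v ≠ 0 := by
  rintro rfl
  have h0 := hv 0
  have h1 := hv 1
  have h2 := hv 2
  have a0 : (0 : Fin 4) + 1 = 1 := rfl
  have a1 : (1 : Fin 4) + 1 = 2 := rfl
  have a2 : (2 : Fin 4) + 1 = 3 := rfl
  rw [zero_dotProduct, a0] at h0
  rw [zero_dotProduct, a1] at h1
  rw [zero_dotProduct, a2] at h2
  obtain ⟨k, hk⟩ := hn
  fin_cases k
  · exact hk rfl
  · exact hk (show n 1 = n 0 by linarith)
  · exact hk (show n 2 = n 0 by linarith)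
  · exact hk (show n 3 = n 0 by linarith)

/-- **(X)** -/
theorem fact_wid {W : ℝ} (hW : Wide K W) (n : Fin 4 → ℤ) (hn : ∃ k, n k ≠ n 0) :
    ∃ y : Fin 4 → ℝ, (∀ k, ∑ i, S.c k i * y i = n k) ∧
      ∀ M m : ℝ, (∀ i, m ≤ y i ∧ y i ≤ M) → W ≤ M - m := by
  obtain ⟨v, hv⟩ := S.exists_vec n
  obtain ⟨y, hy, hval⟩ := S.exists_val n v hv
  refine ⟨y, hy, fun M m hM => ?_⟩
  obtain ⟨x, hx, x', hx', hlt⟩ := hW v (S.vec_ne hn hv)
  rw [hval] at hlt
  have h1 : ∑ j, y j * S.L x j ≤ M := by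
    calc ∑ j, y j * S.L x j ≤ ∑ j, M * S.L x j :=
          Finset.sum_le_sum fun j _ => mul_le_mul_of_nonneg_right (hM j).2 (S.L_nonneg hx j)
      _ = M := by rw [← Finset.mul_sum, S.L_sum, mul_one]
  have h2 : m ≤ ∑ j, y j * S.L x' j := by
    calc m = ∑ j, m * S.L x' j := by rw [← Finset.mul_sum, S.L_sum, mul_one]
      _ ≤ ∑ j, y j * S.L x' j :=
          Finset.sum_le_sum fun j _ => mul_le_mul_of_nonneg_right (hM j).1 (S.L_nonneg hx' j)
  linarith

/-- **(X)** for the simplex truncated at the vertex `k` -/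
theorem fact_widT {W : ℝ} (hW : Wide K W) (k : Fin 4) (e : ℝ)
    (hk : ∀ x ∈ K, S.L x k ≤ 1 - e) (n : Fin 4 → ℤ) (hn : ∃ k, n k ≠ n 0) :
    ∃ y : Fin 4 → ℝ, (∀ k, ∑ i, S.c k i * y i = n k) ∧
      ∀ M m : ℝ, (∀ i, i ≠ k → m ≤ y i ∧ y i ≤ M ∧
        m ≤ (1 - e) * y k + e * y i ∧ (1 - e) * y k + e * y i ≤ M) → W ≤ M - m := by
  obtain ⟨v, hv⟩ := S.exists_vec n
  obtain ⟨y, hy, hval⟩ := S.exists_val n v hv
  refine ⟨y, hy, fun M m hM => ?_⟩
  obtain ⟨x, hx, x', hx', hlt⟩ := hW v (S.vec_ne hn hv)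
  rw [hval] at hlt
  have h1 := trunc_le y (S.L x) k e M (S.L_nonneg hx) (S.L_sum x) (hk x hx)
    fun i hi => ⟨(hM i hi).2.1, (hM i hi).2.2.2⟩
  have h2 := trunc_le (fun j => -y j) (S.L x') k e (-m) (S.L_nonneg hx') (S.L_sum x') (hk x' hx')
    fun i hi => ⟨by
      have := (hM i hi).1
      linarith, by
      have := (hM i hi).2.2.1
      linarith⟩
  have h3 : ∑ j, -y j * S.L x' j = -∑ j, y j * S.L x' j := by
    rw [← Finset.sum_neg_distrib]
    exact Finset.sum_congr rfl fun j _ => by ring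
  rw [h3] at h2
  linarith

/-- the coordinates of an integer combination of the points of the chain -/
theorem L_comb (z : Fin 4 → ℤ) (hz : ∑ k, z k = 1) (i : Fin 4) :
    S.L (toR (∑ k, z k • S.P k)) i = ∑ k, (z k : ℝ) * S.c k i := by
  have h1 : toR (∑ k, z k • S.P k) = ∑ k, (z k : ℝ) • toR (S.P k) := by
    funext j
    simp [toR]
  have h2 : ∑ k, (z k : ℝ) = 1 := by exact_mod_cast hz
  unfold L
  rw [h1, dotProduct_sum]
  have h3 : ∀ k, (z k : ℝ) * S.c k i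
      = (z k : ℝ) * (S.g i ⬝ᵥ toR (S.P i)) - S.g i ⬝ᵥ (z k : ℝ) • toR (S.P k) := fun k => by
    rw [dotProduct_smul, smul_eq_mul]
    unfold c slk
    rw [dotProduct_sub]
    ring
  simp only [h3]
  rw [Finset.sum_sub_distrib, ← Finset.sum_mul, h2, one_mul]

/-- **(Z)** -/
theorem fact_cut {W : ℝ} (hW : Wide K W) (hK : Pool.Agent.Helper12.LW.LFree K) (z : Fin 4 → ℤ)
    (hz : ∑ k, z k = 1) (e : ℝ) (he0 : 0 ≤ e) :
    (∃ i, ∑ k, (z k : ℝ) * S.c k i ≤ e) ∨ ∃ k, ∀ n : Fin 4 → ℤ, (∃ l, n l ≠ n 0) →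
      ∃ y : Fin 4 → ℝ, (∀ k, ∑ i, S.c k i * y i = n k) ∧
      ∀ M m : ℝ, (∀ i, i ≠ k → m ≤ y i ∧ y i ≤ M ∧
        m ≤ (1 - e) * y k + e * y i ∧ (1 - e) * y k + e * y i ≤ M) → W ≤ M - m := by
  by_contra hcon
  push Not at hcon
  obtain ⟨hz1, hcon⟩ := hcon
  obtain ⟨n, R, hn0, hsep, -⟩ := Pool.Agent.Helper1.UB.exists_sep K hK.convex hK.compact.isBounded
    hK.interior_nonempty hK.free
  set Z : Fin 3 → ℤ := ∑ k, z k • S.P k with hZ
  have hl : ∀ i, e < S.L (toR Z) i := fun i => by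
    rw [hZ, S.L_comb z hz i]
    exact hz1 i
  obtain ⟨i, k, hik, hcut⟩ := Pool.Agent.Helper1.UB.cut K S.g (fun k => S.g k ⬝ᵥ toR (S.P k)) S.hg
    S.hone (fun k x hx => S.hsub k x hx) S.hspan (toR Z) (n Z) (hn0 Z) (fun y hy => hsep Z y hy)
    (fun k => lt_of_le_of_lt he0 (hl k))
  obtain ⟨n', hn', hno⟩ := hcon k
  obtain ⟨y, hy1, hy2⟩ := S.fact_widT hW k e (fun x hx => by
    have h1 := hcut x hx
    have h2 := hl i
    have h3 : S.L x k = S.g k ⬝ᵥ toR (S.P k) - Pool.Agent.Helper84.FL.pr (S.g k) x := rfl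
    have h4 : S.L (toR Z) i
      = S.g i ⬝ᵥ toR (S.P i) - Pool.Agent.Helper84.FL.pr (S.g i) (toR Z) := rfl
    linarith) n' hn'
  obtain ⟨M, m, hM, hlt⟩ := hno y hy1
  exact absurd (hy2 M m hM) (not_le.2 hlt)

end Sys

end Pool.Agent.Helper82.TET
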